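import Pool.Agent.Helper76.PB.GoalsF
import Pool.Agent.Helper84.RSP.KUM
import Pool.Agent.Helper84.RSP.SPL
import Pool.Agent.Helper16.PP.PUPR

/-! Packet PB-XFIK (project B, MP_fc6b1e_nt): the functional of a Kummer extension which is split above
`p`. -/

set_option autoImplicit false

namespace Pool.Agent.Helper30.PB

open NumberField Module IsDedekindDomain Polynomial
open Pool.Agent.Helper51.RP Pool.Agent.Helper42.RD Pool.Agent.Helper42.PP Pool.Agent.Helper42.PP1
open Pool.Agent.Helper42.PB Pool.Agent.Helper76.PB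
open scoped IntermediateField

section fld

variable {F E : Type} [Field F] [Field E] [Algebra F E] [FiniteDimensional F E]

theorem htop (p : ℕ) (hp : p.Prime) (x : F) (r : E) (hfin : finrank F E = p)
    (hr : r ^ p = algebraMap F E x) (hx : ¬ ∃ y : F, y ^ p = x) :
    minpoly F r = X ^ p - C x ∧ F⟮r⟯ = ⊤ := by
  subst hfin
  have hirr : Irreducible (X ^ (finrank F E) - C x : F[X]) :=
    X_pow_sub_C_irreducible_of_prime hp (fun b hb => hx ⟨b, hb⟩)
  have hmin : minpoly F r = X ^ (finrank F E) - C x := by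
    symm
    apply minpoly.eq_of_irreducible_of_monic hirr
    · simp [hr]
    · exact monic_X_pow_sub_C x hp.ne_zero
  refine ⟨hmin, ?_⟩
  rw [Field.primitive_element_iff_minpoly_natDegree_eq, hmin, natDegree_X_pow_sub_C]

omit [FiniteDimensional F E] in
theorem eq_one_of_fix {r : E} (ht : F⟮r⟯ = ⊤) (g : E ≃ₐ[F] E) (hg : g r = r) : g = 1 := by
  ext x
  have hx : x ∈ F⟮r⟯ := by
    rw [ht]
    trivial
  refine IntermediateField.adjoin_induction F (p := fun x _ => g x = x) ?_ ?_ ?_ ?_ ?_ hx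
  · intro y hy
    rw [Set.mem_singleton_iff.1 hy]
    exact hg
  · intro y
    exact g.commutes y
  · intro y z _ _ h1 h2
    rw [map_add, h1, h2]
  · intro y _ h1
    rw [map_inv₀, h1]
  · intro y z _ _ h1 h2
    rw [map_mul, h1, h2]

end fld

section nf

variable {F E : Type} [Field F] [NumberField F] [Field E] [NumberField E] [Algebra F E]

theorem val_int (W : HeightOneSpectrum (𝓞 E)) (x : E) (hx : IsIntegral ℤ x) :
    W.valuation E x ≤ 1 := W.valuation_le_one (⟨x, hx⟩ : 𝓞 E)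

/-- The valuations of `1 - e^m`. -/
theorem val_one_sub (p : ℕ) (hp : p.Prime) (e : E) (he : IsPrimitiveRoot e p)
    (W : HeightOneSpectrum (𝓞 E)) (m : ℕ) (h0 : 0 < m) (hm : m < p) :
    W.valuation E (1 - e) ≤ W.valuation E (1 - e ^ m) := by
  have hint : IsIntegral ℤ e := he.isIntegral hp.pos
  have hcop : m.Coprime p := by
    rw [Nat.coprime_comm, hp.coprime_iff_not_dvd]
    exact Nat.not_dvd_of_pos_of_lt h0 hm
  obtain ⟨j, hj⟩ : ∃ j : ℕ, e ^ (m * j) = e := by
    obtain ⟨j, hj⟩ := Nat.exists_mul_mod_eq_one_of_coprime hcop hp.one_lt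
    refine ⟨j, ?_⟩
    rw [← Nat.div_add_mod (m * j) p, hj.2, pow_add, pow_mul, he.pow_eq_one, one_pow, one_mul,
      pow_one]
  have h1 : 1 - e = (∑ l ∈ Finset.range j, (e ^ m) ^ l) * (1 - e ^ m) := by
    have := geom_sum_mul_neg (e ^ m) j
    rw [this, ← pow_mul, hj]
  rw [h1, map_mul]
  refine mul_le_of_le_one_left' (val_int W _ ?_)
  exact IsIntegral.sum _ fun l _ => (hint.pow m).pow l

theorem val_p (p : ℕ) (hp : p.Prime) (e : E) (he : IsPrimitiveRoot e p)
    (W : HeightOneSpectrum (𝓞 E)) :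
    W.valuation E (p : E) ≤ W.valuation E (1 - e) ^ (p - 1) := by
  obtain ⟨n, rfl⟩ : ∃ n, p = n + 1 := ⟨p - 1, by have := hp.pos; omega⟩
  have hint : IsIntegral ℤ e := he.isIntegral hp.pos
  have h1 := he.prod_one_sub_pow_eq_order
  have h2 : ((n + 1 : ℕ) : E) = ∏ k ∈ Finset.range n, (1 - e ^ (k + 1)) := by
    rw [h1]
    push_cast
    ring
  rw [h2, map_prod]
  have h3 : n + 1 - 1 = n := by omega
  rw [h3]
  have h4 : ∏ k ∈ Finset.range n, W.valuation E (1 - e ^ (k + 1)) ≤
      ∏ _k ∈ Finset.range n, W.valuation E (1 - e) := by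
    refine Finset.prod_le_prod' fun k _ => ?_
    have h5 : 1 - e ^ (k + 1) = (∑ l ∈ Finset.range (k + 1), e ^ l) * (1 - e) :=
      (geom_sum_mul_neg e (k + 1)).symm
    rw [h5, map_mul]
    refine mul_le_of_le_one_left' (val_int W _ ?_)
    exact IsIntegral.sum _ fun l _ => hint.pow l
  refine h4.trans (le_of_eq ?_)
  rw [Finset.prod_const, Finset.card_range]

theorem val_root (p : ℕ) (hp : p.Prime) (e : E) (he : e ^ p = 1)
    (W : HeightOneSpectrum (𝓞 E)) : W.valuation E e = 1 := by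
  have hint : IsIntegral ℤ e := IsIntegral.of_pow (n := p) hp.pos (by rw [he]; exact isIntegral_one)
  have h1 : W.valuation E e ^ p = 1 := by rw [← map_pow, he, map_one]
  have h2 := val_int W e hint
  refine le_antisymm h2 ?_
  by_contra h3
  rw [not_le] at h3
  have h4 : W.valuation E e ^ p < 1 := pow_lt_one₀ zero_le h3 hp.ne_zero
  rw [h1] at h4
  exact lt_irrefl _ h4

/-- The decomposition group is trivial. -/
theorem free_of (p : ℕ) (hp : p.Prime) (ε b : F) (r : E) (hε : IsPrimitiveRoot ε p)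
    (hb0 : b ≠ 0) (hr : r ^ p = algebraMap F E b) (ht : F⟮r⟯ = ⊤) (W : HeightOneSpectrum (𝓞 E))
    (y : F) (hW : W.valuation E (algebraMap F E (b * y ^ p - 1)) <
      W.valuation E (1 - algebraMap F E ε) ^ p) : FreeP F W := by
  set e : E := algebraMap F E ε with he
  have heE : IsPrimitiveRoot e p := hε.map_of_injective (algebraMap F E).injective
  have hr0 : r ≠ 0 := by
    rintro rfl
    rw [zero_pow hp.ne_zero] at hr
    exact hb0 ((algebraMap F E).injective (by rw [← hr, map_zero]))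
  set z : E := r * algebraMap F E y with hz
  have hprod : ∏ i ∈ Finset.range p, (z - e ^ i) = algebraMap F E (b * y ^ p - 1) := by
    have h1 := X_pow_sub_C_eq_prod heE hp.pos (α := (1 : E)) (a := 1) (one_pow p)
    have h2 := congrArg (Polynomial.eval z) h1
    rw [eval_prod] at h2
    simp only [eval_sub, eval_pow, eval_X, eval_C, mul_one] at h2
    rw [← h2, hz, mul_pow, hr, map_sub, map_mul, map_pow, map_one]
  obtain ⟨i, hi⟩ : ∃ i : ℕ, W.valuation E (z - e ^ i) < W.valuation E (1 - e) := by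
    by_contra h
    have h1 : ∀ i : ℕ, W.valuation E (1 - e) ≤ W.valuation E (z - e ^ i) := fun i =>
      not_lt.1 fun h' => h ⟨i, h'⟩
    rw [← hprod, map_prod] at hW
    have h2 : ∏ _i ∈ Finset.range p, W.valuation E (1 - e) ≤
        ∏ i ∈ Finset.range p, W.valuation E (z - e ^ i) :=
      Finset.prod_le_prod' fun i _ => h1 i
    rw [Finset.prod_const, Finset.card_range] at h2
    exact absurd hW (not_lt.2 h2)
  intro g hg
  by_contra hg1
  have hgr : g r ^ p = r ^ p := by rw [← map_pow, hr, g.commutes]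
  have hq : (g r / r) ^ p = 1 := by rw [div_pow, hgr, div_self (pow_ne_zero _ hr0)]
  have hpp : NeZero p := ⟨hp.ne_zero⟩
  obtain ⟨m, hm, hm2⟩ := heE.eq_pow_of_pow_eq_one hq
  have hgr2 : g r = e ^ m * r := by rw [hm2, div_mul_cancel₀ _ hr0]
  have hm0 : 0 < m := by
    rcases Nat.eq_zero_or_pos m with h | h
    · rw [h, pow_zero, one_mul] at hgr2
      exact absurd (eq_one_of_fix ht g hgr2) hg1
    · exact h
  have hge : g e = e := g.commutes ε
  have hgz : g (z - e ^ i) = e ^ m * z - e ^ i := by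
    rw [map_sub, map_pow, hge, hz, map_mul, hgr2, g.commutes]
    ring
  have h1 : W.valuation E (e ^ m * z - e ^ i) < W.valuation E (1 - e) := by
    rw [← hgz, hg]
    exact hi
  have hve : W.valuation E e = 1 := val_root p hp e heE.pow_eq_one W
  have h2 : W.valuation E (e ^ m * (z - e ^ i)) < W.valuation E (1 - e) := by
    rw [map_mul, map_pow, hve, one_pow, one_mul]
    exact hi
  have h3 : e ^ m * (z - e ^ i) - (e ^ m * z - e ^ i) = e ^ i * (1 - e ^ m) := by ring
  have h4 : W.valuation E (e ^ i * (1 - e ^ m)) < W.valuation E (1 - e) := by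
    rw [← h3]
    exact lt_of_le_of_lt (Valuation.map_sub _ _ _) (max_lt h2 h1)
  rw [map_mul, map_pow, hve, one_pow, one_mul] at h4
  exact absurd h4 (not_lt.2 (val_one_sub p hp e heE W m hm0 hm))

/-- `e = 1` at the primes where `b` is a unit. -/
theorem ram_one (p : ℕ) (hp : p.Prime) (b : F) (r : E) (hfin : finrank F E = p)
    (hr : r ^ p = algebraMap F E b) (hb : ¬ ∃ y : F, y ^ p = b) (v : HeightOneSpectrum (𝓞 F))
    (hv : v.valuation F (p : F) = 1) (hvb : v.valuation F b = 1)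
    (W : HeightOneSpectrum (𝓞 E)) [hO : W.asIdeal.LiesOver v.asIdeal] :
    v.asIdeal.ramificationIdx' W.asIdeal = 1 := by
  have hFE : FiniteDimensional F E := by
    apply FiniteDimensional.of_finrank_pos
    rw [hfin]
    exact hp.pos
  by_contra hne
  have he0 : v.asIdeal.ramificationIdx' W.asIdeal ≠ 0 :=
    Ideal.IsDedekindDomain.ramificationIdx'_ne_zero_of_liesOver W.asIdeal v.ne_bot
  have he2 : 2 ≤ v.asIdeal.ramificationIdx' W.asIdeal := by omega
  have hmax : v.asIdeal.IsMaximal := v.isMaximal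
  have hdvd : W.asIdeal ^ 2 ∣ v.asIdeal.map (algebraMap (𝓞 F) (𝓞 E)) := by
    rw [Ideal.dvd_iff_le]
    exact (Ideal.le_pow_ramificationIdx').trans (Ideal.pow_le_pow_right he2)
  have hdiff : W.asIdeal ∣ differentIdeal (𝓞 F) (𝓞 E) := by
    have := pow_sub_one_dvd_differentIdeal_aux (𝓞 F) F E W.asIdeal two_ne_zero v.ne_bot hdvd
    simpa using this
  -- an integral generator
  obtain ⟨n, ⟨d, hd⟩, hnd⟩ := v.exists_primeCompl_mul_eq_of_integer b hvb.le
  simp only at hnd
  have hdv : d ∉ v.asIdeal := hd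
  have hnv : n ∉ v.asIdeal := by
    intro h
    rw [← v.valuation_lt_one_iff_mem (K := F)] at h
    change v.valuation F (algebraMap (𝓞 F) F n) < 1 at h
    rw [← hnd, map_mul, hvb, one_mul] at h
    have h2 : v.valuation F (algebraMap (𝓞 F) F d) < 1 := h
    exact hdv ((v.valuation_lt_one_iff_mem (K := F) d).1 h2)
  have hd0 : (d : F) ≠ 0 := by
    intro h
    apply hdv
    have : d = 0 := RingOfIntegers.ext h
    rw [this]
    exact v.asIdeal.zero_mem
  set z : E := algebraMap F E (d : F) * r with hz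
  have hpp : p = p - 1 + 1 := (Nat.sub_add_cancel hp.one_le).symm
  have hzp : z ^ p = algebraMap F E ((d : F) ^ p * b) := by
    rw [hz, mul_pow, hr, map_mul, map_pow]
  have hzb : (d : F) ^ p * b = ((d ^ (p - 1) * n : 𝓞 F) : F) := by
    have e1 : ((d ^ (p - 1) * n : 𝓞 F) : F) = (d : F) ^ (p - 1) * (n : F) := by
      push_cast
      rfl
    have e2 : (n : F) = b * (d : F) := hnd.symm
    rw [e1, e2]
    conv_lhs => rw [hpp, pow_succ]
    ring
  have hnot : ¬ ∃ y : F, y ^ p = (d : F) ^ p * b := by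
    rintro ⟨y, hy⟩
    apply hb
    refine ⟨y / d, ?_⟩
    rw [div_pow, hy, mul_div_cancel_left₀ _ (pow_ne_zero _ hd0)]
  obtain ⟨hmin, htz⟩ := htop p hp _ z hfin hzp hnot
  have hzint : IsIntegral ℤ z := by
    refine IsIntegral.of_pow (n := p) hp.pos ?_
    rw [hzp, hzb]
    exact ((RingOfIntegers.isIntegral_coe (d ^ (p - 1) * n)).map
      ((algebraMap F E).toIntAlgHom))
  set zO : 𝓞 E := ⟨z, hzint⟩ with hzO
  have hadj : Algebra.adjoin F {algebraMap (𝓞 E) E zO} = ⊤ := by
    have h1 : algebraMap (𝓞 E) E zO = z := rfl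
    rw [h1, ← IntermediateField.adjoin_simple_toSubalgebra_of_isAlgebraic
      (IsAlgebraic.of_finite F z), htz]
    rfl
  have hmem := aeval_derivative_mem_differentIdeal (𝓞 F) F E zO hadj
  have hmemW : aeval zO (derivative (minpoly (𝓞 F) zO)) ∈ W.asIdeal :=
    (Ideal.dvd_iff_le.1 hdiff) hmem
  have hval : aeval zO (derivative (minpoly (𝓞 F) zO)) = (p : 𝓞 E) * zO ^ (p - 1) := by
    apply RingOfIntegers.ext
    have hint : IsIntegral (𝓞 F) zO := IsIntegral.of_finite (𝓞 F) zO
    have h1 := minpoly.isIntegrallyClosed_eq_field_fractions F E hint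
    have h2 : algebraMap (𝓞 E) E zO = z := rfl
    rw [h2, hmin] at h1
    have h3 : algebraMap (𝓞 E) E (aeval zO (derivative (minpoly (𝓞 F) zO))) =
        aeval z (derivative ((minpoly (𝓞 F) zO).map (algebraMap (𝓞 F) F))) := by
      rw [derivative_map, aeval_map_algebraMap, ← h2, aeval_algebraMap_apply]
    change algebraMap (𝓞 E) E (aeval zO (derivative (minpoly (𝓞 F) zO))) = _
    rw [h3, ← h1, derivative_sub, derivative_C, sub_zero, derivative_X_pow, map_mul, map_pow,
      aeval_X, aeval_C, map_natCast]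
    have h4 : ((((p : 𝓞 E) * zO ^ (p - 1) : 𝓞 E)) : E) =
        algebraMap (𝓞 E) E ((p : 𝓞 E) * zO ^ (p - 1)) := rfl
    rw [h4, map_mul, map_pow, h2, map_natCast]
  rw [hval] at hmemW
  have hpW : (p : 𝓞 E) ∉ W.asIdeal := by
    intro h
    have h1 : (p : 𝓞 F) ∈ v.asIdeal := by
      rw [hO.over]
      change algebraMap (𝓞 F) (𝓞 E) (p : 𝓞 F) ∈ W.asIdeal
      rw [map_natCast]
      exact h
    rw [← v.valuation_lt_one_iff_mem (K := F)] at h1
    change v.valuation F (algebraMap (𝓞 F) F p) < 1 at h1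
    rw [map_natCast, hv] at h1
    exact lt_irrefl _ h1
  have hzW : zO ∈ W.asIdeal := by
    rcases W.isPrime.mem_or_mem hmemW with h | h
    · exact absurd h hpW
    · exact W.isPrime.mem_of_pow_mem _ h
  have hzW2 : zO ^ p ∈ W.asIdeal := Ideal.pow_mem_of_mem _ hzW p hp.pos
  have hzO2 : zO ^ p = algebraMap (𝓞 F) (𝓞 E) (d ^ (p - 1) * n) := by
    apply RingOfIntegers.ext
    change z ^ p = algebraMap F E ((d ^ (p - 1) * n : 𝓞 F) : F)
    rw [hzp, hzb]
  rw [hzO2] at hzW2
  have h5 : d ^ (p - 1) * n ∈ v.asIdeal := by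
    rw [hO.over]
    exact hzW2
  rcases v.isPrime.mem_or_mem h5 with h | h
  · exact hdv (v.isPrime.mem_of_pow_mem _ h)
  · exact hnv h

theorem lt_pow (p : ℕ) (hp : p.Prime) (π q c : WithZero (Multiplicative ℤ)) (hπ0 : π ≠ 0)
    (hπ1 : π ≤ 1) (hq : q ≤ π ^ (p - 1)) (hc1 : c < 1) (hc : c ≤ q ^ 3) : c < π ^ p := by
  rcases hπ1.eq_or_lt with h | h
  · rw [h, one_pow]
    exact hc1
  · refine lt_of_le_of_lt hc ?_
    refine lt_of_le_of_lt (pow_le_pow_left₀ zero_le hq 3) ?_
    rw [← pow_mul]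
    have := hp.two_le
    exact pow_lt_pow_right_of_lt_one₀ (zero_lt_iff.2 hπ0) h (by omega)

end nf

theorem x_fik (h1 : X_FI) (_h2 : X_SPC) : X_FIK := by
  intro p hpF F _ _ _ ε hε Z hZ hpZ hPr b hbZ hbP hbL
  have hp : p.Prime := hpF.out
  have hb0 : (b : F) ≠ 0 := b.ne_zero
  have hb : ¬ ∃ y : F, y ^ p = (b : F) := by
    rintro ⟨y, hy⟩
    have hy0 : y ≠ 0 := by
      rintro rfl
      rw [zero_pow hp.ne_zero] at hy
      exact hb0 hy.symm
    exact hbP ⟨Units.mk0 y hy0, Units.ext (by simpa using hy.symm)⟩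
  obtain ⟨E, _, _, _, r, hfin, hr⟩ := Pool.Agent.Helper84.RSP.exists_ext p hp F (b : F) hb
  have hFE : FiniteDimensional F E := by
    apply FiniteDimensional.of_finrank_pos
    rw [hfin]
    exact hp.pos
  obtain ⟨hG, -⟩ := Pool.Agent.Helper84.RSP.exists_sigma p hp ε (b : F) r hε hfin hr hb
  obtain ⟨-, ht⟩ := htop p hp (b : F) r hfin hr hb
  have hvp : ∀ v ∉ Z, v.valuation F (p : F) = 1 := by
    intro v hv
    refine le_antisymm ?_ ?_
    · have := v.valuation_le_one (K := F) (p : 𝓞 F)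
      have h2 := congrArg (v.valuation F) (map_natCast (algebraMap (𝓞 F) F) p)
      exact h2 ▸ this
    · by_contra h
      rw [not_le] at h
      exact hv (hpZ h)
  have hvb : ∀ v ∉ Z, v.valuation F (b : F) = 1 := fun v hv => hbZ v hv
  -- the valuation of `1 - ε`
  have hε1 : ∀ W : HeightOneSpectrum (𝓞 E), W.valuation E (1 - algebraMap F E ε) ≤ 1 ∧
      W.valuation E (1 - algebraMap F E ε) ≠ 0 := by
    intro W
    have heE : IsPrimitiveRoot (algebraMap F E ε) p :=
      hε.map_of_injective (algebraMap F E).injective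
    refine ⟨val_int W _ (isIntegral_one.sub (heE.isIntegral hp.pos)), ?_⟩
    rw [Valuation.ne_zero_iff, sub_ne_zero]
    exact (heE.ne_one hp.one_lt).symm
  have hpv : ∀ W : HeightOneSpectrum (𝓞 E), W.valuation E (p : E) ≤
      W.valuation E (1 - algebraMap F E ε) ^ (p - 1) := fun W =>
    val_p p hp (algebraMap F E ε) (hε.map_of_injective (algebraMap F E).injective) W
  have hunr : UnrZ F E Z := by
    intro v hv W hW x
    have hO : W.asIdeal.LiesOver v.asIdeal := ⟨hW.symm⟩
    have h3 := ram_one p hp (b : F) r hfin hr hb v (hvp v hv) (hvb v hv) W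
    have h4 := v.valuation_liesOver (K := F) E W x
    rw [h3, pow_one] at h4
    unfold ordv
    rw [h4]
  have hfree : ∀ W : HeightOneSpectrum (𝓞 E), W.valuation E (p : E) < 1 → FreeP F W := by
    intro W hW
    obtain ⟨y, hy⟩ := hbL
    have hup := Pool.Agent.Helper16.PP.p_upr p F E ∅
    obtain ⟨v, hv⟩ := hup.2.2.2.1 W
    have hO : W.asIdeal.LiesOver v.asIdeal := ⟨hv.symm⟩
    have hev : v.asIdeal.ramificationIdx' W.asIdeal ≠ 0 :=
      Ideal.IsDedekindDomain.ramificationIdx'_ne_zero_of_liesOver W.asIdeal v.ne_bot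
    have h3 := v.valuation_liesOver (K := F) E W (p : F)
    rw [map_natCast (algebraMap F E)] at h3
    have hvp' : v ∈ abP p F := by
      show v.valuation F (p : F) < 1
      by_contra h4
      rw [not_lt] at h4
      have h5 := one_le_pow₀ h4 (n := v.asIdeal.ramificationIdx' W.asIdeal)
      rw [h3] at h5
      exact absurd hW (not_lt.2 h5)
    obtain ⟨h6, h7⟩ := hy v hvp'
    have h8 := v.valuation_liesOver (K := F) E W ((b : F) * (y : F) ^ p - 1)
    refine free_of p hp ε (b : F) r hε hb0 hr ht W (y : F) ?_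
    refine lt_pow p hp _ (W.valuation E (p : E)) _ (hε1 W).2 (hε1 W).1 (hpv W) ?_ ?_
    · rw [← h8]
      exact pow_lt_one₀ zero_le h6 hev
    · rw [← h8, ← h3, pow_right_comm]
      exact pow_le_pow_left₀ zero_le h7 _
  obtain ⟨s, hs1, hs2, -, hs4⟩ := h1 p F E hfin (fun _ => inferInstance) Z hZ hpZ hunr hPr hfree
  refine ⟨s, hs1, hs2, fun w hw hLoc x hx => hs4 x fun v hv hov => ?_⟩
  have hvw : v = w := by
    by_contra h
    exact hov ((hx v hv).2 h)
  subst hvw
  refine ⟨hv, ?_⟩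
  have hup := Pool.Agent.Helper16.PP.p_upr p F E ∅
  obtain ⟨W, hW⟩ := hup.2.2.2.2.2.1 v
  refine ⟨W, hW, ?_⟩
  obtain ⟨y, hy⟩ := hLoc
  have hO : W.asIdeal.LiesOver v.asIdeal := ⟨hW.symm⟩
  have hev : v.asIdeal.ramificationIdx' W.asIdeal ≠ 0 :=
    Ideal.IsDedekindDomain.ramificationIdx'_ne_zero_of_liesOver W.asIdeal v.ne_bot
  have h8 := v.valuation_liesOver (K := F) E W ((b : F) * y ^ p - 1)
  have h3 := v.valuation_liesOver (K := F) E W (p : F)
  rw [map_natCast (algebraMap F E), hvp v hv, one_pow] at h3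
  refine free_of p hp ε (b : F) r hε hb0 hr ht W y ?_
  refine lt_pow p hp _ (W.valuation E (p : E)) _ (hε1 W).2 (hε1 W).1 (hpv W) ?_ ?_
  · rw [← h8]
    exact pow_lt_one₀ zero_le hy hev
  · rw [← h3, one_pow, ← h8]
    exact (pow_lt_one₀ zero_le hy hev).le

end Pool.Agent.Helper30.PB
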